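import Pool.Agent.Lib.MP_2d211a_co.S64AO
import Pool.Agent.Lib.MP_2d211a_co.S64BMain

namespace Pool.Agent.Variants.MP_2d211a_co.AlmostAllExtensions

open Pool.Agent.Lib.MP_2d211a_co CategoryTheory

theorem result : ∃ K n₀ : ℕ, 0 < K ∧ ∀ n ≥ n₀,
    (Quotient.mk (isIsomorphicSetoid GrpCat.{0}) '' {F | Nat.card F = 2 ^ n}).Finite ∧
    (Quotient.mk (isIsomorphicSetoid GrpCat.{0}) '' {F | Nat.card F = 2 ^ n ∧
      ¬∀ (G : Type) [Group G] [Finite G] (f : F →* G), Function.Injective f → f.range.Normal →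
        f.range.index ≤ 2 ^ (n / K) → ∃ (N : Subgroup G) (R : Set G),
          N ≤ Subgroup.center G ∧ Nat.card N = 2 ∧ IsSemiregularRDS N R}).ncard *
        2 ^ (n ^ 3 / K) ≤
      (Quotient.mk (isIsomorphicSetoid GrpCat.{0}) '' {F | Nat.card F = 2 ^ n}).ncard := by
  obtain ⟨K₀, n₁, hK, h⟩ := S64.count_bad
  refine ⟨K₀ + 10 ^ 13, n₁ + 10 ^ 6, by omega, fun n hn => ⟨H60.all_fin Nat.prime_two n, ?_⟩⟩
  refine le_trans (Nat.mul_le_mul (Set.ncard_le_ncard (Set.image_mono fun F hF => ?_)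
    ((H60.all_fin Nat.prime_two n).subset (Set.image_mono fun F hF => hF.1)))
    (Nat.pow_le_pow_right two_pos (Nat.div_le_div_left (Nat.le_add_right _ _) hK)))
    (h n (le_trans (Nat.le_add_right _ _) hn))
  refine ⟨hF.1, fun hg => hF.2 fun G _ _ f h1 h2 h3 => ?_⟩
  exact S64.rds_generic (le_trans (Nat.le_add_left _ _) hn) hF.1 hg f h1 (h3.trans
    (Nat.pow_le_pow_right two_pos (Nat.div_le_div_left (Nat.le_add_left _ _) (by norm_num))))

end Pool.Agent.Variants.MP_2d211a_co.AlmostAllExtensions
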