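import Pool.Agent.Lib.MP_2d211a_co.H60Bnd
import Pool.Agent.Lib.MP_2d211a_co.H60Cnt

namespace Pool.Agent.Variants.MP_2d211a_co.AlmostAllPGroups

open Pool.Agent.Lib.MP_2d211a_co CategoryTheory

theorem large {p n : ℕ} (hp : p.Prime) (hn : 5 ≤ n) (E : Type) [Group E] (hE : Nat.card E = p ^ n)
    (h : ¬∃ (N : Subgroup E) (R : Set E), N ≤ Subgroup.center E ∧ IsSemiregularRDS N R) :
    ∃ x : E, orderOf x = p ^ (n - n / 2) := by
  have := Fact.mk hp
  have : Finite E := Nat.finite_of_card_ne_zero (hE ▸ (pow_pos hp.pos n).ne')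
  obtain ⟨e, -, he⟩ := (Nat.dvd_prime_pow hp).1 (hE ▸ Group.exponent_dvd_nat_card (G := E))
  by_cases h1 : n - n / 2 ≤ e
  · obtain ⟨x, hx⟩ := hp.exists_orderOf_eq_pow_factorization_exponent E
    rw [he, hp.factorization_pow, Finsupp.single_eq_same] at hx
    obtain ⟨c, rfl⟩ := Nat.exists_eq_add_of_le h1
    refine ⟨x ^ p ^ c, ?_⟩
    rw [orderOf_pow_of_dvd (pow_pos hp.pos c).ne' (hx ▸ pow_dvd_pow p (by omega)), hx, pow_add,
      Nat.mul_div_cancel _ (pow_pos hp.pos c)]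
  have : Nontrivial E := Finite.one_lt_card_iff_nontrivial.1
    (hE ▸ Nat.one_lt_pow (by omega) hp.one_lt)
  have hP : IsPGroup p E := IsPGroup.of_card hE
  have := hP.center_nontrivial
  obtain ⟨k, k0, hk⟩ := (hP.to_subgroup (Subgroup.center E)).nontrivial_iff_card.1 this
  obtain ⟨z, hz⟩ := exists_prime_orderOf_dvd_card' (G := Subgroup.center E) p
    (hk ▸ dvd_pow_self p k0.ne')
  obtain ⟨N, R, a, -, -, b⟩ := H60.bounded p n e hp E hE he (by omega)
    (fun _ => ⟨by omega, fun ⟨A, B, a1, _, a2, _, a3⟩ => by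
      have a4 := a3.card_mul_card
      have a5 : Nat.card A ≤ p ^ e := Nat.le_of_dvd (pow_pos hp.pos e) (by
        rw [← he, ← IsCyclic.exponent_eq_card]
        exact Monoid.exponent_dvd_of_monoidHom A.subtype A.subtype_injective)
      have a6 := Nat.mul_le_mul a5 (a2 ▸ a5)
      rw [a4, hE, ← pow_add, Nat.pow_le_pow_iff_right hp.one_lt] at a6
      omega⟩)
    (fun _ => ⟨by omega, by simp; omega, by simp; omega, by simp; omega, fun _ => by omega⟩)
    (Subgroup.zpowers z.1) (Subgroup.zpowers_le.2 z.2)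
    ((Nat.card_zpowers _).trans ((Subgroup.orderOf_coe z).trans hz))
  exact absurd ⟨N, R, a, b⟩ h

theorem result (p n : ℕ) (hp : p.Prime) (hn : 400 ≤ n) :
    (Quotient.mk (isIsomorphicSetoid GrpCat.{0}) '' {E | Nat.card E = p ^ n}).Finite ∧
    (Quotient.mk (isIsomorphicSetoid GrpCat.{0}) '' {E | Nat.card E = p ^ n ∧
      ¬∃ (N : Subgroup E) (R : Set E), N ≤ Subgroup.center E ∧ IsSemiregularRDS N R}).ncard *
        p ^ (n ^ 3 / 40) ≤
      (Quotient.mk (isIsomorphicSetoid GrpCat.{0}) '' {E | Nat.card E = p ^ n}).ncard := by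
  refine ⟨H60.all_fin hp n, ?_⟩
  obtain ⟨m, hm⟩ : ∃ m, m = n / 2 := ⟨_, rfl⟩
  obtain ⟨f, hf⟩ : ∃ f, f + 2 + m = n := ⟨n - m - 2, by omega⟩
  obtain ⟨s, hs⟩ : ∃ s, s = n / 3 := ⟨_, rfl⟩
  obtain ⟨r, hr⟩ : ∃ r, r + 1 + s = n := ⟨n - s - 1, by omega⟩
  obtain ⟨F, h1, h2⟩ := H60.Lg_le hp f m
  have h3 := H60.hig_le hp (r + 1) s
  have h4 := H60.card_Tri (r + 1)
  rw [hr] at h3
  rw [hf] at h1
  rw [Nat.add_sub_cancel] at h4
  generalize Fintype.card (H60.Tri (r + 1)) = C at h3 h4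
  have h5 : F + n ^ 3 / 40 + n * n ≤ s * C := by
    have a1 := Nat.div_mul_le_self (n ^ 3) 40
    have a2 : (2 * m) ^ 3 ≤ n ^ 3 := Nat.pow_le_pow_left (by omega) 3
    have a3 : n * (2 * m) ≤ n * n := Nat.mul_le_mul_left _ (by omega)
    obtain ⟨k, rfl⟩ : ∃ k, n = k + 400 := ⟨n - 400, by omega⟩
    have a4 : (k + 398) * ((2 * k + 800) * (2 * k + 797)) ≤ 3 * s * (3 * (r + 1) * (3 * r)) :=
      Nat.mul_le_mul (by omega) (Nat.mul_le_mul (by omega) (by omega))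
    have a5 : 3 * s * (3 * (r + 1) * (3 * r)) = 54 * (s * C) := by
      linear_combination (27 * s) * h4.symm
    nlinarith [Nat.zero_le (k ^ 3), Nat.zero_le (k ^ 2)]
  refine Nat.le_of_mul_le_mul_right (le_trans ?_ h3) (pow_pos hp.pos _)
  refine le_trans ?_ (Nat.pow_le_pow_right hp.pos h5)
  rw [pow_add, pow_add]
  refine Nat.mul_le_mul_right _ (Nat.mul_le_mul_right _ (le_trans (Set.ncard_le_ncard
    ?_ (H60.Lg_fin hp _ _)) h2))
  refine Set.image_mono fun E hE => ⟨hf ▸ hE.1, ?_⟩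
  rw [show f + 2 = n - n / 2 by omega]
  exact large hp (by omega) E hE.1 hE.2

end Pool.Agent.Variants.MP_2d211a_co.AlmostAllPGroups
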