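import Pool.Agent.Lib.MP_2d211a_co.S64AO
import Pool.Agent.Lib.MP_2d211a_co.S64AT
import Pool.Agent.Lib.MP_2d211a_co.S64BMain
import Pool.Agent.Lib.MP_2d211a_co.S64DMain

namespace Pool.Agent.Variants.MP_2d211a_co.AlmostAllSolvable

open Pool.Agent.Lib.MP_2d211a_co CategoryTheory

theorem result : ∃ K x₀ : ℕ, 0 < K ∧ ∀ x ≥ x₀, ∀ y : ℕ, 0 < y → y ^ K ≤ x →
    (Quotient.mk (isIsomorphicSetoid GrpCat.{0}) '' {G | Finite G ∧ Nat.card G ≤ x ∧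
      ∃ S : Subgroup G, S.Normal ∧ Group.IsSolvable S ∧ S.index ≤ y}).Finite ∧
    (Quotient.mk (isIsomorphicSetoid GrpCat.{0}) '' {G | (Finite G ∧ Nat.card G ≤ x ∧
      ∃ S : Subgroup G, S.Normal ∧ Group.IsSolvable S ∧ S.index ≤ y) ∧
        ¬∃ (N : Subgroup G) (R : Set G), N ≤ Subgroup.center G ∧ Nat.card N = 2 ∧
          IsSemiregularRDS N R}).ncard * 2 ^ (Nat.log 2 x ^ 3 / K) ≤
    (Quotient.mk (isIsomorphicSetoid GrpCat.{0}) '' {G | Finite G ∧ Nat.card G ≤ x ∧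
      ∃ S : Subgroup G, S.Normal ∧ Group.IsSolvable S ∧ S.index ≤ y}).ncard := by
  obtain ⟨K₀, n₁, hK, h⟩ := S64.count_bad
  obtain ⟨K, x₀, h1, h2⟩ := S64.almost_all S64.sims_le
    (fun n => {F | Nat.card F = 2 ^ n ∧ ¬S64.Generic n F}) (fun _ _ hF => hF.1) hK h
    (fun G => ¬∃ (N : Subgroup G) (R : Set G), N ≤ Subgroup.center G ∧ Nat.card N = 2 ∧
      IsSemiregularRDS N R) (T := 10 ^ 13) (n₂ := 10 ^ 6) (by norm_num)
    fun n hn F G _ h3 f h4 _ h5 h6 => ⟨h3, fun hg => h6 (S64.rds_generic hn h3 hg f h4 h5)⟩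
  exact ⟨K, x₀, h1, fun x hx y y0 hy =>
    ⟨(S64.fin_le x).subset (Set.image_mono fun G hG => ⟨hG.1, hG.2.1⟩), h2 x hx y y0 hy⟩⟩

end Pool.Agent.Variants.MP_2d211a_co.AlmostAllSolvable
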