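import Pool.Agent.Lib.MP_2d211a_co.S33GEnd

namespace Pool.Agent.Variants.MP_2d211a_co.AlmostAllTwoGroups

open Pool.Agent.Lib.MP_2d211a_co CategoryTheory

theorem result (S : Set GrpCat.{0})
    (few : ∀ m, 0 < m → (Quotient.mk (isIsomorphicSetoid GrpCat.{0}) ''
      {T | T ∈ S ∧ Nat.card T = m}).ncard ≤ m ^ 20)
    (aut : ∀ T ∈ S, Finite T → ∃ u, Odd u ∧ u ∣ Nat.card T ∧ Nat.card (MulAut T) ≤ u ^ 20) :
    ∃ x₀ : ℕ, ∀ x ≥ x₀,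
      (Quotient.mk (isIsomorphicSetoid GrpCat.{0}) ''
        {G | Finite G ∧ Nat.card G ≤ x ∧ S64.Tame S G}).Finite ∧
      (Quotient.mk (isIsomorphicSetoid GrpCat.{0}) ''
        {G | (Finite G ∧ Nat.card G ≤ x ∧ S64.Tame S G) ∧ ¬(IsPGroup 2 G ∧
          ∃ (N : Subgroup G) (R : Set G), N ≤ Subgroup.center G ∧ Nat.card N = 2 ∧
            IsSemiregularRDS N R)}).ncard * 2 ^ (Nat.log 2 x ^ 2 / 11) ≤
      (Quotient.mk (isIsomorphicSetoid GrpCat.{0}) ''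
        {G | Finite G ∧ Nat.card G ≤ x ∧ S64.Tame S G}).ncard := by
  obtain ⟨x₀, h⟩ := S64.almost_two_rds (S := S) ⟨few, aut⟩ le_rfl
  exact ⟨x₀, fun x hx =>
    ⟨(S64.fin_le x).subset (Set.image_mono fun G hG => ⟨hG.1, hG.2.1⟩), h x hx⟩⟩

end Pool.Agent.Variants.MP_2d211a_co.AlmostAllTwoGroups
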