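import Pool.Agent.Lib.MP_2d211a_co.H30Sym

namespace Pool.Agent.Variants.MP_2d211a_co.CentralProduct

open Pool.Agent.Lib.MP_2d211a_co

theorem result (E : Type) [Group E] [Finite E] (z : E) (hz : orderOf z = 2) (C P : Subgroup E)
    (hs : ∀ g : E, ∃ c ∈ C, ∃ x ∈ P, g = c * x) (hc : ∀ c ∈ C, ∀ x ∈ P, c * x = x * c)
    (hi : C ⊓ P = Subgroup.zpowers z) (hP : ∀ x ∈ P, x ^ 2 ∈ Subgroup.zpowers z)
    (hn : Nat.card C ^ 32 ≤ (Subgroup.center P).index) :
    ∃ R : Set E, IsSemiregularRDS (Subgroup.zpowers z) R := by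
  have hz' := hi.ge (Subgroup.mem_zpowers z)
  have h1 : H62.Cen 2 z := ⟨fun g => by
    obtain ⟨c, h, x, h', rfl⟩ := hs g
    rw [mul_assoc, ← hc z hz'.1 x h', ← mul_assoc, hc c h z hz'.2, mul_assoc],
    (orderOf_eq_prime_iff.1 hz).2, (orderOf_eq_prime_iff.1 hz).1⟩
  have h2 : (P ⊓ Subgroup.centralizer (P : Set E)).subgroupOf P = Subgroup.center P := by
    ext x
    simp [Subgroup.mem_subgroupOf, Subgroup.mem_center_iff, Subgroup.mem_centralizer_iff,
      Subtype.ext_iff]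
  obtain ⟨h3, m, X, hX⟩ := H30.exists_good h1 hP hc hs hi (by
    rw [H30.Big, ← (Subgroup.center P).card_mul_index,
      ← Nat.card_congr (Subgroup.subgroupOfEquivOfLe inf_le_left).toEquiv, h2]
    exact Nat.mul_le_mul_left _ hn)
  obtain ⟨R, a1, -, a2, a3⟩ := hX.rds h1.comm h1.ne
  have h4 : Nat.card (Subgroup.zpowers z) = 2 := by rw [Nat.card_zpowers, hz]
  exact ⟨R, h1.normal, by omega, h4 ▸ h3.trans_le P.card_le_card_group, a1, a2, a3⟩

end Pool.Agent.Variants.MP_2d211a_co.CentralProduct
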