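import Pool.Agent.Lib.MP_2d211a_co.H30Fin

namespace Pool.Agent.Variants.MP_2d211a_co.CentralProductExists

open Pool.Agent.Lib.MP_2d211a_co

theorem result (n : ℕ) :
    ∃ (P : Type) (_ : Group P) (y : P), Nat.card P = 2 ^ (n + 1) ∧ orderOf y = 2 ∧
      y ∈ Subgroup.center P ∧ (∀ x : P, x ^ 2 ∈ Subgroup.zpowers y) ∧
      ∀ (E : Type) [Group E] [Finite E] (C : Subgroup E) (ψ : P →* E), Function.Injective ψ →
        (∀ c ∈ C, ∀ x : P, c * ψ x = ψ x * c) → (∀ g : E, ∃ c ∈ C, ∃ x : P, g = c * ψ x) →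
        C ⊓ ψ.range = Subgroup.zpowers (ψ y) → Nat.card C ^ 24 ≤ 2 ^ n →
        ∃ R : Set E, IsSemiregularRDS (Subgroup.zpowers (ψ y)) R := by
  have hy : orderOf (H30.PG.y : H30.PG (n / 3) (n % 3)) = 2 :=
    orderOf_eq_prime (by rw [sq, H30.PG.y_mul]) H30.PG.y_ne
  have hP : Nat.card (H30.PG (n / 3) (n % 3)) = 2 ^ (n + 1) := by
    rw [H30.PG.card, Nat.div_add_mod]
  refine ⟨H30.PG (n / 3) (n % 3), inferInstance, H30.PG.y, hP, hy,
    Subgroup.mem_center_iff.2 H30.PG.y_comm,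
    fun x => (H30.PG.mem_y _).2 (by rw [sq]; exact H30.V.add_self _), ?_⟩
  intro E _ _ C ψ hψ hc hs hi hn
  have hz : Nat.card (Subgroup.zpowers (ψ H30.PG.y)) = 2 := by
    rw [Nat.card_zpowers, orderOf_injective ψ hψ, hy]
  have h2 : 2 ≤ Nat.card C := hz ▸ Subgroup.card_le_of_le (hi.ge.trans inf_le_left)
  have h3 : 24 ≤ n :=
    (Nat.pow_le_pow_iff_right one_lt_two).1 ((Nat.pow_le_pow_left h2 24).trans hn)
  obtain ⟨h4, m, X, hX⟩ := H30.exists_good C ψ hψ hc hs hi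
    ((Nat.pow_le_pow_iff_left three_ne_zero).1 (by
      rw [← pow_mul, ← pow_mul]
      exact hn.trans (Nat.pow_le_pow_right two_pos (by omega))))
  obtain ⟨R, a1, -, a2, a3⟩ := hX.rds h4 fun h => H30.PG.y_ne (hψ (h.trans ψ.map_one.symm))
  refine ⟨R, ⟨fun g hg x => ?_⟩, by omega, ?_, a1, a2, a3⟩
  · obtain ⟨k, rfl⟩ := hg
    rw [(Commute.zpow_right (h4 x) k).eq, mul_inv_cancel_right]
    exact ⟨k, rfl⟩
  · refine lt_of_lt_of_le ?_ (Nat.card_le_card_of_injective ψ hψ)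
    rw [hz, hP]
    exact Nat.pow_lt_pow_right one_lt_two (show 1 < n + 1 by omega)

end Pool.Agent.Variants.MP_2d211a_co.CentralProductExists
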