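import Pool.Agent.Lib.MP_2d211a_co.H56Exact

/-!
If `E / N` is abelian and a prime `q` divides the size of a semiregular relative difference set
exactly once, then the index of the commutator subgroup of `E` in `N` divides `q`.
-/

namespace Pool.Agent.Variants.MP_2d211a_co.ExactPrime

open Finset Pool.Agent.Lib.MP_2d211a_co

theorem result {E : Type*} [Group E] [Finite E] (N : Subgroup E) (R : Set E)
    (h : IsSemiregularRDS N R) (hc : commutator E ≤ N) (q : ℕ) (hq : q.Prime)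
    (h1 : q ∣ R.ncard) (h2 : ¬ q ^ 2 ∣ R.ncard) : (commutator E).relIndex N ∣ q := by
  classical
  have := Fintype.ofFinite E
  have : Fact q.Prime := ⟨hq⟩
  have := h.1
  obtain ⟨R, rfl⟩ : ∃ R' : Finset E, R = (R' : Set E) := ⟨R.toFinite.toFinset, R.toFinite.coe_toFinset.symm⟩
  rw [Set.ncard_coe_finset] at h1 h2
  obtain ⟨m, hv⟩ := h1
  have hm : ¬ q ∣ m := fun hd => h2 (by rw [hv, pow_two]; exact Nat.mul_dvd_mul_left q hd)
  have hcomm := Subgroup.Normal.quotient_commutative_iff_commutator_le.2 hc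
  let _ : CommGroup (E ⧸ N) := { (inferInstance : Group (E ⧸ N)) with mul_comm := hcomm.1.1 }
  have hB : Nat.card (E ⧸ N) = R.card := by
    have e := h.2.2.2.1
    rw [Set.ncard_coe_finset, Subgroup.card_eq_card_quotient_mul_card_subgroup N] at e
    exact (Nat.eq_of_mul_eq_mul_right Nat.card_pos e).symm
  have hinj : ∀ a ∈ R, ∀ b ∈ R, a * b⁻¹ ∈ N → a = b := fun a ha b hb hab => by
    by_contra hne
    exact h.2.2.2.2.2 _ hab (fun e => hne (mul_inv_eq_one.1 e)) a ha b hb rfl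
  let π : E →* E ⧸ N := (powMonoidHom m).comp (QuotientGroup.mk' N)
  have hπ : ∀ g, π g = (g : E ⧸ N) ^ m := fun _ => rfl
  set S := R.filter (fun r => π r = 1) with hS
  have hSq : ¬ q ∣ S.card := by
    have i1 : Function.Injective fun r : R => ((r : E) : E ⧸ N) := fun a b e =>
      Subtype.ext (hinj _ a.2 _ b.2 (by
        rw [← QuotientGroup.eq_one_iff, QuotientGroup.mk_mul, QuotientGroup.mk_inv]
        exact mul_inv_eq_one.2 e))
    have i2 := (i1.bijective_of_nat_card_le (by rw [hB, Nat.card_eq_finsetCard])).2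
    have e : S.card = Nat.card (powMonoidHom m : E ⧸ N →* E ⧸ N).ker := by
      rw [← Nat.card_eq_finsetCard]
      refine Nat.card_eq_of_bijective (fun s => ⟨((s : E) : E ⧸ N), (mem_filter.1 s.2).2⟩)
        ⟨fun a b e => Subtype.ext (congrArg (fun r : R => (r : E)) (@i1 ⟨a, (mem_filter.1 a.2).1⟩
          ⟨b, (mem_filter.1 b.2).1⟩ (congrArg Subtype.val e))), fun x => ?_⟩
      obtain ⟨r, hr⟩ := i2 x
      refine ⟨⟨r, mem_filter.2 ⟨r.2, ?_⟩⟩, Subtype.ext hr⟩
      rw [hπ, show ((r : E) : E ⧸ N) = x from hr]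
      exact x.2
    rw [e]
    intro hd
    obtain ⟨x, hx⟩ := exists_prime_orderOf_dvd_card' q hd
    exact hm (hx ▸ orderOf_dvd_of_pow_eq_one (Subtype.ext x.2))
  let F := AlgebraicClosure (ZMod q)
  have : Finite (E →* Fˣ) := by
    have : NeZero (Nat.card E) := ⟨Nat.card_pos.ne'⟩
    refine Finite.of_injective (fun (f : E →* Fˣ) (g : E) =>
      (⟨f g, by rw [mem_rootsOfUnity, ← map_pow, pow_card_eq_one', map_one]⟩ :
        rootsOfUnity (Nat.card E) F)) fun f f' e => MonoidHom.ext fun g => ?_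
    exact congrArg Subtype.val (congrFun e g)
  have := Fintype.ofFinite (E →* Fˣ)
  have hΦ : ((Fintype.card (E →* Fˣ) : ℕ) : F) ≠ 0 := by
    rw [Ne, CharP.cast_eq_zero_iff F q]
    intro hd
    obtain ⟨φ, hφ⟩ := exists_prime_orderOf_dvd_card q hd
    have e : φ = 1 := MonoidHom.ext fun g => Units.ext (frobenius_inj F q (by
      have := congrArg (fun f : E →* Fˣ => (f g : F)) (hφ ▸ pow_orderOf_eq_one φ)
      simpa [frobenius_def] using this))
    rw [e, orderOf_one] at hφ
    exact hq.ne_one hφ.symm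
  have hsum : ∀ g : E, (∃ φ : E →* Fˣ, φ g ≠ 1) → ∑ φ : E →* Fˣ, (φ g : F) = 0 := by
    rintro g ⟨φ, hφ⟩
    refine sum_hom_units_eq_zero ((Units.coeHom F).comp (MonoidHom.eval g)) fun e => hφ ?_
    exact Units.ext (DFunLike.congr_fun e φ)
  have key : ∀ n ∈ N, ∀ φ : E →* Fˣ, φ n = 1 := by
    intro n hn φ0
    by_contra h0
    have a1 : ∀ φ : E →* Fˣ,
        (∑ s ∈ S, (φ s : F)) * (∑ s ∈ S, (φ s⁻¹ : F)) * (1 - (φ n : F)) = 0 := by
      intro φ
      by_cases hφ : φ n = 1
      · simp [hφ]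
      have hφ' : (Units.coeHom F).comp φ n ≠ 1 := fun e => hφ (Units.ext e)
      have hπq : ∀ g, π g ^ q = 1 := fun g => by
        rw [hπ, ← pow_mul, mul_comm, ← hv, ← hB, pow_card_eq_one']
      have hπN : ∀ g ∈ N, π g = 1 := fun g hg => by
        rw [hπ, (QuotientGroup.eq_one_iff g).2 hg, one_pow]
      rcases not_both_zero h hv hm ((Units.coeHom F).comp φ) hn hφ' with h3 | h3
      · have := slice_zero h ⟨m, hv⟩ π hπq hπN _ hn hφ' h3
        rw [show ∑ s ∈ S, (φ s⁻¹ : F) = 0 from this, mul_zero, zero_mul]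
      · have := slice_zero h ⟨m, hv⟩ π hπq hπN ((Units.coeHom F).comp φ⁻¹) hn
          (fun e => hφ (inv_eq_one.1 (Units.ext e))) (by simpa using h3)
        rw [show ∑ s ∈ S, (φ s : F) = 0 by simpa using this, zero_mul, zero_mul]
    have a2 : ∀ s ∈ S, ∀ s' ∈ S, s ≠ s' → ∀ x ∈ N, ∃ φ : E →* Fˣ, φ (s * s'⁻¹ * x) ≠ 1 := by
      intro s hs s' hs' hne x hx
      obtain ⟨χ, hχ⟩ := exists_char (B := E ⧸ N) (q := q) (b := ((s * s'⁻¹ : E) : E ⧸ N))
        fun k hk => hne (hinj s (mem_filter.1 hs).1 s' (mem_filter.1 hs').1 (by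
          have e1 : ((s * s'⁻¹ : E) : E ⧸ N) ^ m = 1 := by
            rw [← hπ, map_mul, map_inv, (mem_filter.1 hs).2, (mem_filter.1 hs').2]
            simp
          have e2 := pow_gcd_eq_one.2 ⟨hk, e1⟩
          rw [((Nat.Prime.coprime_iff_not_dvd hq).2 hm).pow_left k, pow_one] at e2
          exact (QuotientGroup.eq_one_iff _).1 e2))
      refine ⟨χ.comp (QuotientGroup.mk' N), ?_⟩
      rw [map_mul, MonoidHom.comp_apply _ _ x, QuotientGroup.mk'_apply,
        (QuotientGroup.eq_one_iff x).2 hx, map_one, mul_one]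
      exact hχ
    have a3 : ∑ φ : E →* Fˣ, (∑ s ∈ S, (φ s : F)) * (∑ s ∈ S, (φ s⁻¹ : F)) * (1 - (φ n : F)) =
        ∑ s ∈ S, ∑ s' ∈ S, (∑ φ : E →* Fˣ, (φ (s * s'⁻¹ * 1) : F) -
          ∑ φ : E →* Fˣ, (φ (s * s'⁻¹ * n) : F)) := by
      have b1 : ∀ φ : E →* Fˣ, (∑ s ∈ S, (φ s : F)) * (∑ s ∈ S, (φ s⁻¹ : F)) * (1 - (φ n : F)) =
          ∑ s ∈ S, ∑ s' ∈ S, ((φ (s * s'⁻¹ * 1) : F) - (φ (s * s'⁻¹ * n) : F)) := fun φ => by
        rw [Finset.sum_mul_sum, Finset.sum_mul]
        refine Finset.sum_congr rfl fun s _ => ?_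
        rw [Finset.sum_mul]
        refine Finset.sum_congr rfl fun s' _ => ?_
        simp only [map_mul, map_one, Units.val_mul, Units.val_one]
        ring
      rw [Finset.sum_congr rfl fun φ _ => b1 φ, Finset.sum_comm]
      refine Finset.sum_congr rfl fun s _ => ?_
      rw [Finset.sum_comm]
      exact Finset.sum_congr rfl fun s' _ => Finset.sum_sub_distrib _ _
    rw [Finset.sum_eq_zero fun φ _ => a1 φ,
      Finset.sum_congr rfl (g := fun _ => ((Fintype.card (E →* Fˣ) : ℕ) : F)) fun s hs => by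
        rw [Finset.sum_eq_single_of_mem s hs fun s' hs' hne => by
          rw [hsum _ (a2 s hs s' hs' hne.symm 1 N.one_mem), hsum _ (a2 s hs s' hs' hne.symm n hn),
            sub_self], mul_inv_cancel, one_mul, one_mul, hsum n ⟨φ0, h0⟩]
        simp, Finset.sum_const, nsmul_eq_mul] at a3
    exact hSq ((CharP.cast_eq_zero_iff F q _).1 ((mul_eq_zero.1 a3.symm).resolve_right hΦ))
  have hP : IsPGroup q (N.map (Abelianization.of (G := E))) := by
    rintro ⟨_, n, hn, rfl⟩
    by_contra hk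
    obtain ⟨χ, hχ⟩ := exists_char (q := q) (b := Abelianization.of n)
      fun k e => hk ⟨k, Subtype.ext e⟩
    exact hχ (key n hn (χ.comp Abelianization.of))
  obtain ⟨j, hj⟩ := hP.exists_card_eq
  have e1 : (commutator E).relIndex N = q ^ j := by
    rw [← Abelianization.ker_of, Subgroup.relIndex_ker, hj]
  have e2 : Nat.card N ∣ R.card := by
    obtain ⟨g, hg⟩ : ∃ g, g ∉ N := by
      by_contra hall
      push Not at hall
      have e := h.2.2.1
      rw [(Subgroup.eq_top_iff' N).2 hall, Subgroup.card_top] at e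
      exact lt_irrefl _ e
    have e := h.2.2.2.2.1 g hg
    rw [Set.ncard_coe_finset] at e
    exact Dvd.intro_left _ e
  have e3 := (Subgroup.relIndex_dvd_card (commutator E) N).trans e2
  rw [e1] at e3 ⊢
  have : j ≤ 1 := by
    by_contra hlt
    exact h2 ((pow_dvd_pow q (by omega)).trans e3)
  simpa using pow_dvd_pow q this

end Pool.Agent.Variants.MP_2d211a_co.ExactPrime
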