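import Pool.Agent.Lib.MP_2d211a_co.H62NC

namespace Pool.Agent.Variants.MP_2d211a_co.NoncentralExpP

open Pool.Agent.Lib.MP_2d211a_co

theorem result (p n : ℕ) (hp : p.Prime) (E : Type) [Group E] [Finite E] (hE : Nat.card E = p ^ n)
    (X : Subgroup E) (hX : Monoid.exponent X ∣ p) (hZ : ¬X ≤ Subgroup.center E)
    (h2 : p = 2 → X.Normal)
    (hV : ∀ (V : Subgroup E) [V.Normal], Nat.card V = p ^ 2 → Monoid.exponent V ∣ p →
      IsCyclic (E ⧸ V) →
        (Odd n ∧ Monoid.exponent E ∣ p ^ (n - 2)) ∨ (p ≠ 2 ∧ Monoid.exponent E ∣ p ^ 2)) :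
    ∃ (N : Subgroup E) (R : Set E),
      N ≤ Subgroup.center E ∧ Nat.card N = p ∧ IsSemiregularRDS N R := by
  have := Fact.mk hp
  have hP : IsPGroup p E := .of_card hE
  have h1 : ∀ a ∈ X, a ^ p = 1 := fun a ha => congrArg Subtype.val
    (Monoid.exponent_dvd_iff_forall_pow_eq_one.1 hX ⟨a, ha⟩)
  obtain ⟨x, hx, hxZ⟩ := SetLike.not_le_iff_exists.1 hZ
  obtain ⟨w, w1, w2, w3⟩ : ∃ w : E, w ^ p = 1 ∧ w ∉ Subgroup.center E ∧
      ∀ g : E, g * w * g⁻¹ * w⁻¹ ∈ Subgroup.center E := by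
    rcases hp.two_le.eq_or_lt with h | h
    · have := h2 h.symm
      exact H62.second_of_normal hP X h1 hZ
    · exact H62.exists_second h hP (h1 x hx) hxZ
  obtain ⟨z, hz, m, Y, hY⟩ := H62.good_noncentral hE w1 w2 w3 fun V _ c e q =>
    (hV V c (Monoid.exponent_dvd_iff_forall_pow_eq_one.2 fun v => Subtype.ext (e v v.2)) q).imp
      (fun h => ⟨h.1, Monoid.exponent_dvd_iff_forall_pow_eq_one.1 h.2⟩) fun h =>
        ⟨lt_of_le_of_ne hp.two_le h.1.symm, Monoid.exponent_dvd_iff_forall_pow_eq_one.1 h.2⟩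
  have hc := H62.card_zp hz.ne hz.pow
  have hN : Subgroup.zpowers z ≤ Subgroup.center E :=
    Subgroup.zpowers_le.2 (Subgroup.mem_center_iff.2 hz.comm)
  obtain ⟨R, hR⟩ := hY.isRDS hz (hc ▸ lt_of_le_of_ne (Subgroup.card_le_card_group _) fun h =>
    w2 (hN (Subgroup.eq_top_of_card_eq _ h ▸ Subgroup.mem_top w)))
  exact ⟨_, R, hN, hc, hR⟩

end Pool.Agent.Variants.MP_2d211a_co.NoncentralExpP
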