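import Pool.Agent.Lib.MP_2d211a_co.H30End

namespace Pool.Agent.Variants.MP_2d211a_co.SymplecticNormal

open Pool.Agent.Lib.MP_2d211a_co

theorem result (E : Type) [Group E] [Finite E] (z : E) (hz : orderOf z = 2)
    (hz' : z ∈ Subgroup.center E) (C P : Subgroup E) (nC : C.Normal) (nP : P.Normal)
    (zC : z ∈ C) (zP : z ∈ P) (hc : ∀ c ∈ C, ∀ x ∈ P, c * x = x * c)
    (hP : ∀ x ∈ P, x ^ 2 ∈ Subgroup.zpowers z)
    (hn : Nat.card C ^ (600 * (C ⊔ P).index ^ 5) ≤ (Subgroup.center P).index) :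
    ∃ R : Set E, IsSemiregularRDS (Subgroup.zpowers z) R := by
  have h1 : H62.Cen 2 z := ⟨Subgroup.mem_center_iff.1 hz',
    (orderOf_eq_prime_iff.1 hz).2, (orderOf_eq_prime_iff.1 hz).1⟩
  have h2 : (P ⊓ Subgroup.centralizer (P : Set E)).subgroupOf P = Subgroup.center P := by
    ext x
    simp [Subgroup.mem_subgroupOf, Subgroup.mem_center_iff, Subgroup.mem_centralizer_iff,
      Subtype.ext_iff]
  obtain ⟨h3, m, X, hX⟩ := H30.Sy.good' ⟨h1, nC, nP, zC, zP, hP, hc, le_rfl⟩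
    (Nat.pos_of_ne_zero Subgroup.index_ne_zero_of_finite) (by
      rw [H30.Big, ← (Subgroup.center P).card_mul_index,
        ← Nat.card_congr (Subgroup.subgroupOfEquivOfLe inf_le_left).toEquiv, h2]
      exact Nat.mul_le_mul_left _ hn)
  obtain ⟨R, a1, -, a2, a3⟩ := hX.rds h1.comm h1.ne
  have h4 : Nat.card (Subgroup.zpowers z) = 2 := by rw [Nat.card_zpowers, hz]
  exact ⟨R, h1.normal, by omega, h4 ▸ h3.trans_le P.card_le_card_group, a1, a2, a3⟩

end Pool.Agent.Variants.MP_2d211a_co.SymplecticNormal
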