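import Pool.Agent.Lib.MP_2d211a_co.H1Prod

namespace Pool.Agent.Variants.MP_2d211a_co.TernaryFourthPower

open Finset Pool.Agent.Lib.MP_2d211a_co

theorem result (p n : ℕ) (hp : p.Prime) (h3 : p % 3 = 2) (hn : Odd n) (P : Type*) [Group P]
    [Finite P] (N : Subgroup P) (hN : N ≤ Subgroup.center P) (hc : Nat.card N = 3)
    (hP : N = ⊤ ∨ ∃ R, IsSemiregularRDS N R) :
    ∃ S, IsSemiregularRDS
      (N.prod ⊥ : Subgroup (P × Multiplicative (ZMod 3 × (Fin (4 * n) → ZMod p)))) S := by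
  classical
  have := Fact.mk hp
  have := Fintype.ofFinite P
  have := Fintype.ofFinite (GaloisField p n)
  obtain ⟨B', hB'⟩ := H1.exists_pn (GaloisField p n) (by
    obtain ⟨k, rfl⟩ := hn
    rw [← Nat.card_eq_fintype_card, GaloisField.card p _ (by omega), pow_succ, pow_mul, Nat.mul_mod,
      Nat.pow_mod, Nat.pow_mod p, h3]
    simp)
  let ε : (Fin (4 * n) → ZMod p) ≃ₗ[ZMod p] (Fin 4 → GaloisField p n) :=
    LinearEquiv.ofFinrankEq _ _ (by
      simp [Module.finrank_pi_fintype, GaloisField.finrank p hn.pos.ne'])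
  have hB := hB'.comp ((AddEquiv.refl _).prodCongr ε.toAddEquiv)
  rcases hP with rfl | ⟨R, h⟩
  · refine H1.prod_rds hN hc {1} (fun e => ⟨1, by simp, fun r hr => by simpa using hr.1⟩) ?_
      (fun e he => absurd (Subgroup.mem_top e) he) hB
    rw [← hc, Subgroup.card_top, card_singleton, one_mul]
  · obtain ⟨R, rfl⟩ : ∃ R' : Finset P, R = (R' : Set P) :=
      ⟨R.toFinite.toFinset, R.toFinite.coe_toFinset.symm⟩
    obtain ⟨hN', -, -, h1, h2, h4⟩ := h
    rw [Set.ncard_coe_finset, hc] at h1 h2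
    have inn : ∀ a ∈ R, ∀ b ∈ R, a * b⁻¹ ∈ N → a = b := fun a ha b hb hab => by
      by_contra hne
      exact h4 _ hab (fun e => hne (mul_inv_eq_one.1 e)) a ha b hb rfl
    have mk : ∀ a b : P, (a : P ⧸ N) = b ↔ a * b⁻¹ ∈ N := fun a b => by
      rw [← QuotientGroup.eq_one_iff, QuotientGroup.mk_mul, QuotientGroup.mk_inv, mul_inv_eq_one]
    have i1 : Function.Injective fun r : R => ((r : P) : P ⧸ N) := fun a b e =>
      Subtype.ext (inn _ a.2 _ b.2 ((mk _ _).1 e))
    have i2 := (i1.bijective_of_nat_card_le (by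
      rw [Subgroup.card_eq_card_quotient_mul_card_subgroup N, hc] at h1
      rw [Nat.card_eq_finsetCard]
      omega)).2
    refine H1.prod_rds hN hc R (fun e => ?_) h1 (fun e he => ?_) hB
    · obtain ⟨r, hr⟩ := i2 e
      refine ⟨r, ⟨r.2, (mk _ _).1 hr⟩, fun r' hr' => inn _ hr'.1 _ r.2 ((mk _ _).1 ?_)⟩
      exact ((mk _ _).2 hr'.2).trans hr.symm
    · rw [← h2 e he, ← Set.ncard_coe_finset]
      congr 2
      ext q
      simp [and_assoc]

end Pool.Agent.Variants.MP_2d211a_co.TernaryFourthPower
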